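import Pool.Agent.Helper50.BL.Stmts
import Pool.Agent.Helper50.BL.Base

namespace Pool.Agent.Helper50.BL

open Finset
open scoped Classical

/-- The exponential is a power. -/
theorem nump_exp (p n1 : ℕ) (h : 1 ≤ n1) :
    Real.exp (-(64 * p * Real.log n1)) = ((1 : ℝ) / (n1 : ℝ) ^ (16 * p)) ^ 4 := by
  have hn : (0 : ℝ) < n1 := by exact_mod_cast h
  rw [Real.exp_neg, one_div, inv_pow, ← pow_mul]
  congr 1
  have e : (64 : ℝ) * p * Real.log n1 = ((16 * p * 4 : ℕ) : ℝ) * Real.log n1 := by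
    push_cast
    ring
  rw [e, Real.exp_nat_mul, Real.exp_log hn]

/-- The basic inequality for a. -/
theorem nump_a (X t : ℝ) (hX : 0 < X) (ht : 1 ≤ t) (hXt : 14 * t ≤ X) :
    2 * (1 / X ^ 2) ^ 6 + 12 * t * (1 / X) ^ 4 ≤ (1 / X) ^ 3 := by
  have hX1 : 1 ≤ X := by linarith
  set u : ℝ := 1 / X with hu
  have hu0 : 0 < u := by positivity
  have hu1 : u ≤ 1 := by rw [hu, div_le_one hX]; exact hX1
  have huX : u * X = 1 := by rw [hu]; field_simp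
  have e1 : (1 / X ^ 2) ^ 6 = u ^ 12 := by
    rw [hu]
    field_simp
  rw [e1]
  have h1 : u ^ 12 ≤ u ^ 4 := pow_le_pow_of_le_one hu0.le hu1 (by norm_num)
  have h2 : u ^ 4 * (14 * t) ≤ u ^ 4 * X := by
    exact mul_le_mul_of_nonneg_left hXt (by positivity)
  have h3 : u ^ 4 * X = u ^ 3 := by
    calc u ^ 4 * X = u ^ 3 * (u * X) := by ring
      _ = u ^ 3 := by rw [huX, mul_one]
  have h4 : u ^ 4 * 1 ≤ u ^ 4 * t := mul_le_mul_of_nonneg_left ht (by positivity)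
  nlinarith [h1, h2, h3, h4]

/-- The logarithm is at most twice the square root. -/
theorem nump_log (y : ℝ) (hy : 0 < y) : Real.log y ≤ 2 * Real.sqrt y := by
  have h1 : Real.log y = 2 * Real.log (Real.sqrt y) := by
    rw [Real.log_sqrt hy.le]
    ring
  have h2 : Real.log (Real.sqrt y) ≤ Real.sqrt y :=
    (Real.log_le_sub_one_of_pos (Real.sqrt_pos.2 hy)).trans (by linarith)
  linarith

/-- The condition e. -/
theorem nump_e (p t ρ n1 k : ℕ) (h128 : 128 * t ≤ n1) (hn : 1 ≤ n1)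
    (hρ : 2 ^ ρ ≤ 128 * t) (hp2 : 88473600 * p ^ 2 ≤ n1) :
    21600 * (((2 : ℝ) ^ ρ) ^ k * (1 / (nn n1 k : ℝ)) ^ 3) * (32 * p * Real.log (nn n1 k)) ^ 2
      ≤ 1 := by
  set y : ℝ := (nn n1 k : ℝ) with hy
  have hnn : n1 ≤ nn n1 k := by
    unfold nn
    calc n1 = n1 ^ 1 := (pow_one _).symm
      _ ≤ n1 ^ 2 ^ k := Nat.pow_le_pow_right hn Nat.one_le_two_pow
  have hyn : (n1 : ℝ) ≤ y := by rw [hy]; exact_mod_cast hnn
  have hn1 : (1 : ℝ) ≤ n1 := by exact_mod_cast hn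
  have hy0 : 0 < y := by linarith
  have hy1 : 1 ≤ y := by linarith
  have h1 : ((2 : ℝ) ^ ρ) ^ k ≤ y := by
    have : (2 ^ ρ) ^ k ≤ nn n1 k := by
      unfold nn
      calc (2 ^ ρ) ^ k ≤ n1 ^ k := Nat.pow_le_pow_left (hρ.trans h128) k
        _ ≤ n1 ^ 2 ^ k := Nat.pow_le_pow_right hn k.lt_two_pow_self.le
    rw [hy]
    exact_mod_cast this
  have hl0 : 0 ≤ Real.log y := Real.log_nonneg hy1
  have h2 : Real.log y ^ 2 ≤ 4 * y := by
    have h := nump_log y hy0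
    calc Real.log y ^ 2 ≤ (2 * Real.sqrt y) ^ 2 := pow_le_pow_left₀ hl0 h 2
      _ = 4 * y := by rw [mul_pow, Real.sq_sqrt hy0.le]; norm_num
  have h3 : ((2 : ℝ) ^ ρ) ^ k * (1 / y) ^ 3 ≤ (1 / y) ^ 2 := by
    calc ((2 : ℝ) ^ ρ) ^ k * (1 / y) ^ 3 ≤ y * (1 / y) ^ 3 :=
          mul_le_mul_of_nonneg_right h1 (by positivity)
      _ = (1 / y) ^ 2 := by field_simp
  have hp : (88473600 : ℝ) * p ^ 2 ≤ y := by
    have : (88473600 : ℝ) * p ^ 2 ≤ n1 := by exact_mod_cast hp2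
    linarith
  calc 21600 * (((2 : ℝ) ^ ρ) ^ k * (1 / y) ^ 3) * (32 * p * Real.log y) ^ 2
      ≤ 21600 * ((1 / y) ^ 2) * (32 * p * Real.log y) ^ 2 := by gcongr
    _ = 21600 * (1 / y) ^ 2 * (1024 * p ^ 2) * Real.log y ^ 2 := by ring
    _ ≤ 21600 * (1 / y) ^ 2 * (1024 * p ^ 2) * (4 * y) := by gcongr
    _ = 88473600 * p ^ 2 / y := by field_simp; ring
    _ ≤ 1 := by rw [div_le_one hy0]; exact hp

/-- The condition f. -/
theorem nump_f (p t n1 : ℕ) (hp : 1 ≤ p) (ht : 1 ≤ t) (hL : (99 : ℝ) ≤ Real.log n1)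
    (h256 : 256 * t ≤ n1) (h8 : (128 * t) ^ 8 ≤ n1) (h216 : 21600 ≤ n1) :
    ∃ Nf : ℕ, 64 * (t : ℝ) ≤ 2 ^ Nf ∧
      1350 * Rf (64 * p * Real.log n1) t (agc p t n1) ((n1 : ℝ) ^ (16 * p)) Nf
        + 21600 * (1 / (n1 : ℝ)) ^ 3 ≤ tau0 p t n1 := by
  have h64 : 64 * t ≤ 2 ^ Nat.clog 2 (64 * t) := Nat.le_pow_clog (by norm_num) _
  have h64' : 2 ^ Nat.clog 2 (64 * t) ≤ 128 * t := by
    have h1 : 2 ^ (Nat.clog 2 (64 * t)).pred < 64 * t :=
      Nat.pow_pred_clog_lt_self (by norm_num) (by omega)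
    have h2 : 0 < Nat.clog 2 (64 * t) := Nat.clog_pos (by norm_num) (by omega)
    obtain ⟨m, hm⟩ := Nat.exists_eq_succ_of_ne_zero h2.ne'
    rw [hm] at h1 ⊢
    rw [Nat.pred_succ] at h1
    rw [pow_succ]
    omega
  set Nf := Nat.clog 2 (64 * t) with hNf
  set L := Real.log n1 with hLd
  have hn0 : (0 : ℝ) < n1 := by
    have : 0 < n1 := by omega
    exact_mod_cast this
  have hNL : (Nf : ℝ) ≤ L / 5 := by
    have h1 : ((2 : ℝ) ^ Nf) ^ 8 ≤ n1 := by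
      have : (2 ^ Nf) ^ 8 ≤ n1 := (Nat.pow_le_pow_left h64' 8).trans h8
      exact_mod_cast this
    have h2 : Real.log (((2 : ℝ) ^ Nf) ^ 8) ≤ L := Real.log_le_log (by positivity) h1
    rw [Real.log_pow, Real.log_pow] at h2
    have h3 := Real.log_two_gt_d9
    have h4 : (0 : ℝ) ≤ Nf := Nat.cast_nonneg _
    push_cast at h2
    nlinarith
  refine ⟨Nf, by exact_mod_cast h64, ?_⟩
  have hpR : (1 : ℝ) ≤ p := by exact_mod_cast hp
  have htR : (1 : ℝ) ≤ t := by exact_mod_cast ht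
  set S := Real.sqrt ((t : ℝ) * L) with hS
  have hS1 : 1 ≤ S := by
    rw [hS]
    exact Real.one_le_sqrt.2 (by nlinarith)
  have hAg : agc p t n1 ≤ 32 * p * S := by
    unfold agc
    rw [← hLd]
    have h1 : (t : ℝ) * (16 * p * L) ≤ (4 * p * S) ^ 2 := by
      rw [mul_pow, mul_pow, hS, Real.sq_sqrt (by positivity)]
      have : (p : ℝ) ≤ p ^ 2 := by nlinarith
      have h2 : (0 : ℝ) ≤ t * L := by positivity
      nlinarith [mul_le_mul_of_nonneg_left this h2]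
    calc 8 * Real.sqrt ((t : ℝ) * (16 * p * L)) ≤ 8 * Real.sqrt ((4 * p * S) ^ 2) := by gcongr
      _ = 8 * (4 * p * S) := by rw [Real.sqrt_sq (by positivity)]
      _ = 32 * p * S := by ring
  have hAg0 : 0 ≤ agc p t n1 := by unfold agc; positivity
  have hK : (256 : ℝ) * t ≤ (n1 : ℝ) ^ (16 * p) := by
    have h1 : 256 * t ≤ n1 ^ (16 * p) := by
      calc 256 * t ≤ n1 := h256
        _ = n1 ^ 1 := (pow_one _).symm
        _ ≤ n1 ^ (16 * p) := Nat.pow_le_pow_right (by omega) (by omega)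
    exact_mod_cast h1
  have hK0 : (0 : ℝ) < (n1 : ℝ) ^ (16 * p) := by positivity
  have hL1 : 1 ≤ L := by linarith
  have hPL : 1 ≤ (p : ℝ) ^ 2 * L ^ 2 := by
    have h1 : (1 : ℝ) ≤ (p : ℝ) ^ 2 := by nlinarith
    have h2 : (1 : ℝ) ≤ L ^ 2 := by nlinarith
    nlinarith
  have t1 : (64 * p * L + 2) * (Nf + 7) * agc p t n1 ≤ 66 * p * L * L * (32 * p * S) := by
    have h1 : 64 * p * L + 2 ≤ 66 * (p : ℝ) * L := by nlinarith
    have h2 : (Nf : ℝ) + 7 ≤ L := by linarith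
    have h4 : (0 : ℝ) ≤ Nf := Nat.cast_nonneg _
    gcongr
  have t2 : 256 * t * agc p t n1 / (n1 : ℝ) ^ (16 * p) ≤ 32 * p * S := by
    rw [div_le_iff₀ hK0]
    calc 256 * t * agc p t n1 ≤ (n1 : ℝ) ^ (16 * p) * agc p t n1 := by gcongr
      _ ≤ (n1 : ℝ) ^ (16 * p) * (32 * p * S) := by gcongr
      _ = 32 * p * S * (n1 : ℝ) ^ (16 * p) := by ring
  have t3 : 21600 * (1 / (n1 : ℝ)) ^ 3 ≤ 1 := by
    have h1 : (21600 : ℝ) ≤ n1 := by exact_mod_cast h216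
    have h2 : 1 / (n1 : ℝ) ≤ 1 := by rw [div_le_one hn0]; linarith
    have h3 : (1 / (n1 : ℝ)) ^ 3 ≤ (1 / (n1 : ℝ)) ^ 1 :=
      pow_le_pow_of_le_one (by positivity) h2 (by norm_num)
    rw [pow_one] at h3
    calc 21600 * (1 / (n1 : ℝ)) ^ 3 ≤ n1 * (1 / (n1 : ℝ)) := by gcongr
      _ = 1 := by field_simp
  unfold Rf tau0
  rw [← hLd, ← hS]
  have hpp : (p : ℝ) * S ≤ (p : ℝ) ^ 2 * S * L ^ 2 := by
    have h1 : (p : ℝ) ≤ (p : ℝ) ^ 2 * L ^ 2 := by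
      have h2 : (1 : ℝ) ≤ L ^ 2 := by nlinarith
      nlinarith
    nlinarith
  have hone : 1 ≤ (p : ℝ) ^ 2 * S * L ^ 2 := by nlinarith
  nlinarith [t1, t2, t3, hpp, hone]

/-- Numerical conditions of the final stage. -/
theorem st_NUMP : ST_NUMP := by
  intro p γ hp hγ
  refine ⟨10 ^ 6 * p + ⌈4 / γ⌉₊, fun t ρ dd n1 ht hd hρ hn => ?_⟩
  set C0 : ℕ := 10 ^ 6 * p + ⌈4 / γ⌉₊ with hC0
  set B : ℕ := C0 * t * dd with hB
  have hC1 : 10 ^ 6 * p ≤ C0 := by rw [hC0]; exact Nat.le_add_right _ _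
  have hC2 : ⌈4 / γ⌉₊ ≤ C0 := by rw [hC0]; exact Nat.le_add_left _ _
  have htd : 1 ≤ t * dd := Nat.mul_pos ht hd
  have hBC : C0 * (t * dd) = B := by rw [hB]; ring
  have hCB : C0 ≤ B := by rw [← hBC]; exact Nat.le_mul_of_pos_right _ htd
  have hB6 : 10 ^ 6 ≤ B := by
    have : 10 ^ 6 ≤ 10 ^ 6 * p := Nat.le_mul_of_pos_right _ hp
    omega
  have hB1 : B ≤ n1 := by
    calc B = B ^ 1 := (pow_one _).symm
      _ ≤ B ^ 8 := Nat.pow_le_pow_right (by omega) (by norm_num)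
      _ ≤ n1 := hn
  have hBp : 10 ^ 6 * p ≤ B := hC1.trans hCB
  have hB2 : B ^ 2 ≤ n1 := (Nat.pow_le_pow_right (by omega) (by norm_num)).trans hn
  have hBtd : 10 ^ 6 * (t * dd) ≤ B := by
    rw [← hBC]
    refine Nat.mul_le_mul_right _ ?_
    have : 10 ^ 6 ≤ 10 ^ 6 * p := Nat.le_mul_of_pos_right _ hp
    omega
  have htle : t ≤ t * dd := Nat.le_mul_of_pos_right _ hd
  have hBt : 10 ^ 6 * t ≤ B := by omega
  have h88 : 88473600 * p ^ 2 ≤ n1 := by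
    calc 88473600 * p ^ 2 ≤ (10 ^ 6 * p) ^ 2 := by
          rw [mul_pow]
          exact Nat.mul_le_mul_right _ (by norm_num)
      _ ≤ B ^ 2 := Nat.pow_le_pow_left hBp 2
      _ ≤ n1 := hB2
  have hn0 : (0 : ℝ) < n1 := by
    have : 0 < n1 := by omega
    exact_mod_cast this
  have hL : (99 : ℝ) ≤ Real.log n1 := by
    have h1 : (2 : ℝ) ^ 144 ≤ n1 := by
      have : 2 ^ 144 ≤ n1 := by
        calc 2 ^ 144 ≤ (10 ^ 6) ^ 8 := by norm_num
          _ ≤ B ^ 8 := Nat.pow_le_pow_left hB6 8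
          _ ≤ n1 := hn
      exact_mod_cast this
    have h2 : Real.log ((2 : ℝ) ^ 144) ≤ Real.log n1 := Real.log_le_log (by positivity) h1
    rw [Real.log_pow] at h2
    have h3 := Real.log_two_gt_d9
    push_cast at h2
    linarith
  have hpR : (1 : ℝ) ≤ p := by exact_mod_cast hp
  have htR : (1 : ℝ) ≤ t := by exact_mod_cast ht
  set X : ℝ := (n1 : ℝ) ^ (16 * p) with hX
  have hXn : (n1 : ℝ) ≤ X := by
    have h1 : n1 ≤ n1 ^ (16 * p) := by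
      calc n1 = n1 ^ 1 := (pow_one _).symm
        _ ≤ n1 ^ (16 * p) := Nat.pow_le_pow_right (by omega) (by omega)
    rw [hX]
    exact_mod_cast h1
  have hX0 : 0 < X := by linarith
  have hX2 : (n1 : ℝ) ^ (32 * p) = X ^ 2 := by
    rw [hX, ← pow_mul]
    congr 1
    ring
  have h14 : 14 * (t : ℝ) ≤ X := by
    have h1 : (14 * t : ℕ) ≤ n1 := by omega
    have h2 : (14 : ℝ) * t ≤ n1 := by exact_mod_cast h1
    linarith
  have hX1 : 1 ≤ X := by linarith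
  have ha := nump_a X t hX0 htR h14
  have hu1 : 1 / X ≤ 1 := by rw [div_le_one hX0]; exact hX1
  have hsq : 1 ≤ Real.sqrt ((t : ℝ) * Real.log n1) := Real.one_le_sqrt.2 (by nlinarith)
  refine ⟨?_, ?_, ?_, ?_, ?_, ?_, ?_, ?_, ?_⟩
  · rw [nump_exp p n1 (by omega), hX2, ← hX]
    refine ha.trans ?_
    exact pow_le_pow_of_le_one (by positivity) hu1 (by norm_num)
  · rw [nump_exp p n1 (by omega), hX2, ← hX]
    refine ha.trans ?_
    have h1 : (1 / X) ^ 3 ≤ (1 / X) ^ 1 := pow_le_pow_of_le_one (by positivity) hu1 (by norm_num)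
    rw [pow_one] at h1
    refine h1.trans ?_
    have h2 : 4 / γ ≤ X := by
      have h3 : 4 / γ ≤ (⌈4 / γ⌉₊ : ℝ) := Nat.le_ceil _
      have h4 : ((⌈4 / γ⌉₊ : ℕ) : ℝ) ≤ n1 := by
        exact_mod_cast hC2.trans (hCB.trans hB1)
      linarith
    rw [div_le_iff₀ hγ] at h2
    rw [div_le_iff₀ hX0]
    linarith
  · unfold agc
    have h1 : 1 ≤ Real.sqrt ((t : ℝ) * (16 * p * Real.log n1)) := by
      refine Real.one_le_sqrt.2 ?_
      have h2 : 1 ≤ 16 * (p : ℝ) * Real.log n1 := by nlinarith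
      nlinarith
    linarith
  · have h1 : (1 / (n1 : ℝ)) ≤ 1 := by
      rw [div_le_one hn0]
      have : (1 : ℕ) ≤ n1 := by omega
      exact_mod_cast this
    have h2 : (1 / (n1 : ℝ)) ^ (12 * p) ≤ (1 / (n1 : ℝ)) ^ 1 :=
      pow_le_pow_of_le_one (by positivity) h1 (by omega)
    rw [pow_one] at h2
    have h3 : (1 / (n1 : ℝ)) ≤ 1 / 10 ^ 6 := by
      refine one_div_le_one_div_of_le (by positivity) ?_
      have : 10 ^ 6 ≤ n1 := hB6.trans hB1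
      exact_mod_cast this
    have h4 : (1 / (n1 : ℝ)) ^ (12 * p) ≤ 1 / 10 ^ 6 := h2.trans h3
    nlinarith
  · intro k
    exact nump_e p t ρ n1 k (by omega) (by omega) hρ h88
  · refine nump_f p t n1 hp ht hL (by omega) ?_ (by omega)
    exact (Nat.pow_le_pow_left (by omega) 8).trans hn
  · intro n hnn
    have hn1 : 1 ≤ n := by omega
    have h1 : 32 * (t * dd) ≤ n ^ 4 := by
      calc 32 * (t * dd) ≤ n := by omega
        _ = n ^ 1 := (pow_one _).symm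
        _ ≤ n ^ 4 := Nat.pow_le_pow_right hn1 (by norm_num)
    have h2 : 32 * t ≤ n ^ 4 := by omega
    have h3 : n ^ 4 * n ^ 12 = n ^ 16 := by rw [← pow_add]
    constructor
    · calc 32 * t * n ^ 12 * dd = 32 * (t * dd) * n ^ 12 := by ring
        _ ≤ n ^ 4 * n ^ 12 := Nat.mul_le_mul_right _ h1
        _ = n ^ 16 := h3
        _ ≤ n ^ (16 * p) := Nat.pow_le_pow_right hn1 (by omega)
    · calc 32 * t * n ^ 12 ≤ n ^ 4 * n ^ 12 := Nat.mul_le_mul_right _ h2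
        _ = n ^ 16 := h3
  · omega
  · unfold tau0
    have h1 : (1 : ℝ) ≤ (p : ℝ) ^ 2 := by nlinarith
    have h2 : (1 : ℝ) ≤ Real.log n1 ^ 2 := by nlinarith
    have h3 : (1 : ℝ) ≤ (p : ℝ) ^ 2 * Real.sqrt ((t : ℝ) * Real.log n1) := by nlinarith
    have h4 : (1 : ℝ) ≤ (p : ℝ) ^ 2 * Real.sqrt ((t : ℝ) * Real.log n1) * Real.log n1 ^ 2 := by
      nlinarith
    nlinarith

end Pool.Agent.Helper50.BL
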